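import Mathlib
import Pool.Agent.H.MP_01b7fc_pr.A

namespace Pool.Agent.H.MP_01b7fc_pr

open Equiv Finset

def tt : Fin 6 → ℝ := ![3, 1, 1, 30, 2, 1]

lemma tt_pos (i : Fin 6) : 0 < tt i := by fin_cases i <;> simp [tt]

lemma rt_eq (i : Fin 6) : (rt i : ℝ) = 30 / tt i := by
  have h : ∀ i : Fin 6, rt i = ![10, 30, 30, 1, 15, 30] i := by decide +kernel
  rw [h]
  fin_cases i <;> simp [tt] <;> norm_num

def cf (w : Perm (Fin 6)) (a : Fin 6) : ℝ := (lt (w a) (w (a - 1)) : ℝ) * rt (w a)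

lemma term (w : Perm (Fin 6)) (a : Fin 6) (y : ℝ) :
    (if w a < w (a - 1) then y / tt (w a) else 0) = cf w a * y / 30 := by
  unfold cf lt
  split_ifs with h
  · have : Nat.blt (w a) (w (a - 1)) = true := by simpa [Nat.blt_eq] using h
    rw [this, rt_eq]
    have := (tt_pos (w a)).ne'
    simp only [cond_true, Nat.cast_one]
    field_simp
  · have : Nat.blt (w a) (w (a - 1)) = false := by
      rw [← Bool.not_eq_true, Nat.blt_eq]; simpa using h
    rw [this]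
    simp

def V (T : ℕ) (w : Perm (Fin 6)) : ℝ := vl T (w 0) (w 1) (w 2) (w 3) (w 4) (w 5)

lemma s0 : (0 - 1 : Fin 6) = 5 := rfl
lemma s1 : (1 - 1 : Fin 6) = 0 := rfl
lemma s2 : (2 - 1 : Fin 6) = 1 := rfl
lemma s3 : (3 - 1 : Fin 6) = 2 := rfl
lemma s4 : (4 - 1 : Fin 6) = 3 := rfl
lemma s5 : (5 - 1 : Fin 6) = 4 := rfl

lemma out_eq (w : Perm (Fin 6)) :
    ∑ a, cf w a = (out (w 0) (w 1) (w 2) (w 3) (w 4) (w 5) : ℕ) := by
  simp only [Fin.sum_univ_six, cf, s0, s1, s2, s3, s4, s5, out]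
  push_cast
  ring

lemma up_eq (T : ℕ) (w : Perm (Fin 6)) :
    ∑ a, cf w a * V T (w * swap a (a - 1)) =
      (up T (w 0) (w 1) (w 2) (w 3) (w 4) (w 5) : ℕ) := by
  simp only [Fin.sum_univ_six, cf, s0, s1, s2, s3, s4, s5, up, V, Perm.mul_apply]
  push_cast
  rfl

lemma inf_eq (T : ℕ) (w : Perm (Fin 6)) :
    ∑ a, cf (w * swap a (a - 1)) a * V T (w * swap a (a - 1)) =
      (inf T (w 0) (w 1) (w 2) (w 3) (w 4) (w 5) : ℕ) := by
  simp only [Fin.sum_univ_six, cf, s0, s1, s2, s3, s4, s5, inf, V, Perm.mul_apply]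
  push_cast
  rfl

lemma bal (F : Perm (Fin 6) → ℝ) :
    ∑ w, V TP w * ∑ a, cf w a * (F (w * swap a (a - 1)) - F w) / 30 = 0 := by
  have h1 : ∀ a : Fin 6, ∑ w, V TP w * cf w a * F (w * swap a (a - 1)) =
      ∑ w, cf (w * swap a (a - 1)) a * V TP (w * swap a (a - 1)) * F w := by
    intro a
    rw [← Equiv.sum_comp (Equiv.mulRight (swap a (a - 1)))]
    refine sum_congr rfl fun w _ => ?_
    simp only [Equiv.coe_mulRight, mul_assoc w, swap_mul_self, mul_one]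
    ring
  have h2 : ∀ w : Perm (Fin 6), ∑ a, cf (w * swap a (a - 1)) a * V TP (w * swap a (a - 1)) =
      (∑ a, cf w a) * V TP w := by
    intro w
    rw [inf_eq, out_eq, beq_iff_eq.1 (all6_spec cP w)]
    simp [V]
  calc _ = (∑ a, ∑ w, V TP w * cf w a * F (w * swap a (a - 1)) -
        ∑ w, (∑ a, cf w a) * V TP w * F w) / 30 := by
        rw [sum_comm, ← sum_sub_distrib, sum_div]
        refine sum_congr rfl fun w _ => ?_
        rw [sum_mul, sum_mul, ← sum_sub_distrib, sum_div, mul_sum]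
        exact sum_congr rfl fun a _ => by ring
    _ = 0 := by
        rw [sum_congr rfl fun a _ => h1 a, sum_comm]
        simp only [← h2, sum_mul, sub_self, zero_div]

lemma ind_eq (x y z u : Fin 6) (v : Perm (Fin 6)) (h0 : v 0 = 0) (h1 : v 1 = x) (h2 : v 2 = y)
    (h3 : v 3 = z) (h4 : v 4 = 1) (h5 : v 5 = u) (w : Perm (Fin 6)) :
    (ind x y z u (w 0) (w 1) (w 2) (w 3) (w 4) (w 5) : ℝ) =
      if w = v then 100000000000 else 0 := by
  unfold ind
  split_ifs with h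
  · subst h
    simp [h0, h1, h2, h3, h4, h5]
  · rw [Bool.cond_eq_if, if_neg, Nat.cast_zero]
    intro k
    simp only [Bool.and_eq_true, beq_iff_eq] at k
    obtain ⟨⟨⟨⟨⟨k0, k1⟩, k2⟩, k3⟩, k4⟩, k5⟩ := k
    refine h (Equiv.ext fun i => Fin.ext ?_)
    fin_cases i
    · simpa [h0] using k0
    · simpa [h1] using k1
    · simpa [h2] using k2
    · simpa [h3] using k3
    · exact k4.trans (congrArg Fin.val h4).symm
    · simpa [h5] using k5

lemma lt_of_cert {T : ℕ} (x y z u : Fin 6) (hc : cert T x y z u = true) (π : Perm (Fin 6) → ℝ)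
    (p0 : ∀ w, 0 ≤ π w) (p1 : ∑ w, π w = 1)
    (hs : ∑ w, π w * ∑ a, cf w a * (V T (w * swap a (a - 1)) - V T w) / 30 = 0)
    (w : Perm (Fin 6)) (g0 : w 0 = 0) (g1 : w 1 = 5) (g2 : w 2 = 4)
    (g3 : w 3 = 2) (g4 : w 4 = 1) (g5 : w 5 = 3)
    (v : Perm (Fin 6)) (h0 : v 0 = 0) (h1 : v 1 = x) (h2 : v 2 = y)
    (h3 : v 3 = z) (h4 : v 4 = 1) (h5 : v 5 = u) : π w < π v := by
  have k : ∀ s : Perm (Fin 6), ∑ a, cf s a * (V T (s * swap a (a - 1)) - V T s) / 30 ≤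
      ((if s = v then 100000000000 else 0) - (if s = w then 100000000000 else 0) - 1) / 30 := by
    intro s
    have e := Nat.le_of_ble_eq_true (all6_spec hc s)
    have e' := (Nat.cast_le (α := ℝ)).2 e
    push_cast at e'
    have a1 := ind_eq 5 4 2 3 w g0 g1 g2 g3 g4 g5 s
    have a2 := ind_eq x y z u v h0 h1 h2 h3 h4 h5 s
    rw [← sum_div, ← a1, ← a2]
    simp only [mul_sub, sum_sub_distrib, ← sum_mul, up_eq, out_eq]
    refine div_le_div_of_nonneg_right ?_ (by norm_num)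
    have : ((5 : Fin 6) : ℕ) = 5 ∧ ((4 : Fin 6) : ℕ) = 4 ∧ ((2 : Fin 6) : ℕ) = 2 ∧
      ((3 : Fin 6) : ℕ) = 3 := by decide
    rw [this.1, this.2.1, this.2.2.1, this.2.2.2]
    unfold V
    linarith
  have l := sum_le_sum fun s (_ : s ∈ univ) => mul_le_mul_of_nonneg_left (k s) (p0 s)
  rw [hs] at l
  simp only [← mul_div_assoc, ← sum_div, mul_sub, sum_sub_distrib, mul_ite, mul_zero, mul_one,
    sum_ite_eq', mem_univ, if_true, p1] at l
  linarith

end Pool.Agent.H.MP_01b7fc_pr
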